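import Mathlib
import Pool.Agent.H.MP_104b1e_lc.A

namespace Pool.Agent.Results.MP_63af43_lc.Subpoly

open Pool.Agent.H.MP_104b1e_lc

theorem result : ∀ n : ℕ, 17 ≤ n →
    ZAMle (fun (x : Fin n → Bool) (y : Fin n) => x y)
      (Real.exp (120 * Real.sqrt (Real.log n * Real.log (Real.log n)))) := by
  intro n hn
  exact main _ n hn (by simp)

end Pool.Agent.Results.MP_63af43_lc.Subpoly
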